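import Pool.Agent.H27.DM.AllQ
import Pool.Agent.H23.DF.TargetsA
import Pool.Agent.H23.DF.TargetsL
import Pool.Agent.H1.DF.FI
import Pool.Agent.H1.DF.MQ
import Pool.Agent.H13.DF.DV
import Pool.Agent.H18.DF.QBP
import Pool.Agent.H18.DF.QH
import Pool.Agent.H18.DF.QL
import Pool.Agent.H19.DF.BE
import Pool.Agent.H19.DF.FN
import Pool.Agent.H19.DF.ID
import Pool.Agent.H19.DF.MY
import Pool.Agent.H19.DF.SX
import Pool.Agent.H27.DF.DY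
import Pool.Agent.H3.DF.PS
import Pool.Agent.H3.DF.SV
import Pool.Agent.H33.DF.Q2
import Pool.Agent.H33.DF.SM
import Pool.Agent.H34.DF.P1
import Pool.Agent.H34.DF.SO
import Pool.Agent.H39.DF.QF
import Pool.Agent.H42.DF.CH
import Pool.Agent.H48.DF.LP
import Pool.Agent.H49.DF.PA
import Pool.Agent.H56.DF.TR
import Pool.Agent.H6.DF.PL
import Pool.Agent.H60.DF.QT
import Pool.Agent.H63.DF.CC
import Pool.Agent.H63.DF.LS
import Pool.Agent.H65.DF.LN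
import Pool.Agent.H68.DF.DC
import Pool.Agent.H68.DF.OC
import Pool.Agent.H68.DF.Q1
import Pool.Agent.H69.DF.QR
import Pool.Agent.H69.DF.TW
import Pool.Agent.H77.DF.CT
import Pool.Agent.H77.DF.P2
import Pool.Agent.H81.DF.QI
import Pool.Agent.H90.DF.LX
import Pool.Agent.H90.DF.TK
import Pool.Agent.H90.FW.MX
import Pool.Agent.H90.WM.All
import Pool.Agent.H92.DF.KP
import Pool.Agent.H94.DF.QBQ
import Pool.Agent.H95.DF.H9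
import Pool.Agent.H95.DF.VA

/-!
# Moments of Hecke L-functions, friable conductors: assembly
-/

set_option autoImplicit false

open NumberField NumberField.InfinitePlace Complex

namespace Pool.Agent.H27.DF.All

open Pool.Agent.H23.DF
open Pool.Agent.H27.DM.All
open Pool.Agent.H27.TMB.All Pool.Agent.H31.SWX.All
open Pool.Agent.H31.SWL.All Pool.Agent.H29.DW.Base
open Pool.Agent.H29.DW.All (d_PG d_AE d_GH d_SG)
open Pool.Agent.H29.THC.Base (c_TH c_YC c_DU c_RX c_PU c_RR c_SY c_NS c_FP c_ID c_ME c_UI c_CT)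
open Pool.Agent.H29.THC.All (a_HR a_GX a_EX a_CQ a_CS a_TR)

theorem f_BE : F_BE := Pool.Agent.H19.DF.BE.pf_BE 
theorem v_H9 : V_H9 := Pool.Agent.H95.DF.H9.pf_H9 
theorem v_TK : V_TK := Pool.Agent.H90.DF.pf_TK v_H9 (Pool.Agent.H34.BG.SC.pf_W_SC (Pool.Agent.H77.BG.pf_W_ST Pool.Agent.H34.BG.HD.pf_W_HD Pool.Agent.H13.BR.pf_W_NV Pool.Agent.H77.BG.pf_W_EX Pool.Agent.H77.BG.pf_W_VZ))
theorem v_LX : V_LX := Pool.Agent.H90.DF.pf_LX 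
theorem v_VA : V_VA := Pool.Agent.H95.DF.VA.pf_VA 
theorem v_PL : V_PL := Pool.Agent.H6.DF.pf_PL 
theorem v_MY : V_MY := Pool.Agent.H19.DF.MY.pf_MY v_TK v_LX v_VA v_PL Pool.Agent.H68.BG.pf_W_NE Pool.Agent.H63.BG.W_EP.pf_W_EP Pool.Agent.H70.BG.pf_W_EY
theorem f_LP : F_LP := Pool.Agent.H48.DF.LP.pf_LP v_MY Pool.Agent.H90.FW.MX.pf_MX
theorem f_SX : F_SX := Pool.Agent.H19.DF.SX.pf_SX 
theorem f_LS : F_LS := Pool.Agent.H63.DF.LS.pf_LS f_LP f_SX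
theorem f_CT : F_CT := Pool.Agent.H77.DF.CT.pf_CT 
theorem f_LN : F_LN := Pool.Agent.H65.DF.LN.pf_LN c_DU
theorem f_CC : F_CC := Pool.Agent.H63.DF.CC.pf_CC p_CC f_LS f_CT f_SX p_ZT f_LN c_RX
theorem f_CH : F_CH := Pool.Agent.H42.DF.CH.pf_CH 
theorem f_SV : F_SV := Pool.Agent.H3.DF.SV.pf_SV f_SX
theorem f_TR : F_TR := Pool.Agent.H56.DF.TR.pf_TR 
theorem f_ID : F_ID := Pool.Agent.H19.DF.ID.pf_ID 
theorem f_DC : F_DC := Pool.Agent.H68.DF.DC.pf_DC p_PI p_SC f_SV f_TR f_CC f_ID x_GX c_RX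
theorem f_DV : F_DV := Pool.Agent.H13.DF.DV.pf_DV w_CU Pool.Agent.H29.THC.pf_DV c_DU m_DL f_LN
theorem f_DY : F_DY := Pool.Agent.H27.DF.DY.pf_DY w_CU w_NB
theorem f_MQ : F_MQ := Pool.Agent.H1.DF.MQ.pf_MQ w_CU f_BE
theorem f_PA : F_PA := Pool.Agent.H49.DF.PA.pf_PA x_PO c_RX m_LA m_LS m_E1 w_WS f_LN f_DV
theorem f_P1 : F_P1 := Pool.Agent.H34.DF.P1.pf_P1 f_PA f_LN
theorem f_PS : F_PS := Pool.Agent.H3.DF.PS.pf_PS x_PO m_CF m_CB m_E1 f_LN c_RX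
theorem f_P2 : F_P2 := Pool.Agent.H77.DF.P2.pf_P2 m_DU m_ET p_ZT f_PS f_DV f_LN
theorem f_SM : F_SM := Pool.Agent.H33.DF.SM.pf_SM m_SM f_ID
theorem f_OC : F_OC := Pool.Agent.H68.DF.OC.pf_OC f_P1 f_P2 f_SM f_ID Pool.Agent.H29.THC.pf_DV
theorem f_SO : F_SO := Pool.Agent.H34.DF.SO.pf_SO w_CU
theorem f_Q1 : F_Q1 := Pool.Agent.H68.DF.Q1.pf_Q1 m_RK m_MJ m_DL f_MQ f_DY f_OC f_SO p_RP p_CL f_DC f_CH f_LN Pool.Agent.H29.THC.pf_DV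
theorem f_Q2 : F_Q2 := Pool.Agent.H33.DF.Q2.pf_Q2 f_Q1 (Pool.Agent.H48.SM.CN.pf_CN m_CL)
theorem f_FN : F_FN := Pool.Agent.H19.DF.FN.pf_FN p_EF f_SX p_NC
theorem f_QF : F_QF := Pool.Agent.H39.DF.QF.pf_QF f_Q2 f_FN
theorem f_QR : F_QR := Pool.Agent.H69.DF.QR.pf_QR f_QF c_RX w_CU
theorem f_QI : F_QI := Pool.Agent.H81.DF.QI.pf_QI f_QR Pool.Agent.H65.SM.JN.pf_JN w_IN w_MS c_RR c_YC c_FD
theorem f_QBP : F_QBP := Pool.Agent.H18.DF.QBP.pf_QBP w_UP w_WL f_QI u_CG c_SY a_GX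
theorem f_QBQ : F_QBQ := Pool.Agent.H94.DF.QBQ.pf_QBQ w_UQ w_WL f_QI c_RR u_DC x_SH a_GX
theorem f_QL : F_QL := Pool.Agent.H18.DF.QL.pf_QL f_QBP f_QBQ p_QN p_SP x_SG d_AE d_GH a_HR Pool.Agent.H63.HK.ds u_DC u_GE
theorem f_QT : F_QT := Pool.Agent.H60.DF.QT.pf_QT f_QL
theorem f_KP : F_KP := Pool.Agent.H92.DF.KP.pf_KP 
theorem f_TW : F_TW := Pool.Agent.H69.DF.TW.pf_TW f_QT f_KP p_TC p_SP x_SG
theorem f_QH : F_QH := Pool.Agent.H18.DF.QH.pf_QH f_QT f_TW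
theorem f_FI : F_FI := Pool.Agent.H1.DF.FI.pf_FI f_QH f_TW u_FK c_SY

end Pool.Agent.H27.DF.All
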