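import Pool.Agent.H23.DF.TargetsG
import Pool.Agent.H31.SW.TargetsG
import Pool.Agent.H31.SW.Tools
import Pool.Agent.H29.DW.Tools

/-! Board `dmf_modules`, row DY: the dyadic decomposition (after `Pool.Agent.H70.DM.DY`). -/

set_option autoImplicit false

open NumberField NumberField.InfinitePlace NumberField.Units
  NumberField.Units.dirichletUnitTheorem MeasureTheory Set Filter Complex
open scoped nonZeroDivisors ENNReal

namespace Pool.Agent.H27.DF.DY

open Pool.Agent.H25.HK Pool.Agent.H23.LB Pool.Agent.H23.LC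
open Pool.Agent.H29.DW (dg Rl lf wv Pos Wg cpar Ci om zs rv Wt)
open Pool.Agent.H31.SW (EE itg FF HD DB DS dif Pf GG G2 DD PP pF dK pz ps Tf WG)
open Pool.Agent.H27.TM (Sh S4 lo Maj G3 kp El Cr Am mf Dl mc Ep Cls Spc bt th1)
open Pool.Agent.H23.DM
open Pool.Agent.H23.DF

/-! ### Local part -/

private lemma pf_bdd {p : Bool → ℂ → ℂ} (hp : Pf p) : ∃ B : ℝ, 1 ≤ B ∧ ∀ r z, ‖p r z‖ ≤ B := by
  have h1 : ∀ r : Bool, ∃ B : ℝ, ∀ z, ‖p r z‖ ≤ B := by
    intro r
    obtain ⟨B, hB⟩ := (isCompact_closedBall (0 : ℂ) 1).exists_bound_of_continuousOn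
      ((hp.1 r 0).continuous.continuousOn)
    refine ⟨max B 0, fun z => ?_⟩
    by_cases hz : ‖z‖ ≤ 1
    · exact (hB z (by simpa using hz)).trans (le_max_left _ _)
    · rw [hp.2 r z (by linarith [not_le.1 hz]), norm_zero]
      exact le_max_right _ _
  choose B hB using h1
  refine ⟨max 1 (max (B true) (B false)), le_max_left _ _, fun r z => ?_⟩
  cases r with
  | true => exact (hB true z).trans ((le_max_left _ _).trans (le_max_right _ _))
  | false => exact (hB false z).trans ((le_max_right _ _).trans (le_max_right _ _))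

private lemma norm_GG (p : ℂ → ℂ) (c w : ℂ) : ‖GG p c w‖ = ‖p (w - 1)‖ := by
  unfold GG
  rw [norm_mul, Pool.Agent.H31.SW.norm_EE, one_mul]

private lemma mf_bdd {q Ψ : Bool → ℂ → ℂ} {B B' : ℝ} (hB : 1 ≤ B) (hq : ∀ r z, ‖q r z‖ ≤ B)
    (hΨ : ∀ r z, ‖Ψ r z‖ ≤ B') (r : Bool) (G : ℝ) (c w w' : ℂ) :
    ‖mf (q r) (Ψ r) G c w w'‖ ≤ B * B * B' := by
  unfold mf
  rw [norm_mul, norm_mul, RCLike.norm_conj, norm_GG, norm_GG]
  have h1 := hq r (w - 1)
  have h2 := hq r (w' - 1)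
  have h3 := hΨ r (G * (Complex.log w - Complex.log w'))
  gcongr

private lemma mf_ne {q Ψ : Bool → ℂ → ℂ} (hq : Pf q) (hΨ : Pf Ψ) {r : Bool} {G : ℝ} {c w w' : ℂ}
    (h : mf (q r) (Ψ r) G c w w' ≠ 0) :
    ‖w - 1‖ ≤ 1 / 10000 ∧ ‖w' - 1‖ ≤ 1 / 10000 ∧
      ‖(G : ℂ) * (Complex.log w - Complex.log w')‖ ≤ 1 / 10000 := by
  unfold mf at h
  refine ⟨?_, ?_, ?_⟩
  · by_contra h1
    apply h
    have : GG (q r) c w = 0 := by
      unfold GG
      rw [hq.2 r _ (not_le.1 h1), mul_zero]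
    rw [this, zero_mul, zero_mul]
  · by_contra h1
    apply h
    have : GG (q r) c w' = 0 := by
      unfold GG
      rw [hq.2 r _ (not_le.1 h1), mul_zero]
    rw [this, map_zero, mul_zero, zero_mul]
  · by_contra h1
    apply h
    rw [hΨ.2 r _ (not_le.1 h1), mul_zero]

/-- the distance of the points in terms of the distance of the logarithms -/
private lemma dist_le {G : ℝ} {w w' : ℂ} (hG : 1 ≤ G) (hw : ‖w - 1‖ ≤ 1 / 10000)
    (hw' : ‖w' - 1‖ ≤ 1 / 10000)
    (h : ‖(G : ℂ) * (Complex.log w - Complex.log w')‖ ≤ 1 / 10000) :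
    G * ‖w - w'‖ ≤ 2 / 10000 := by
  have hG0 : 0 < G := by linarith
  set u := Complex.log w - Complex.log w' with hu
  rw [norm_mul, Complex.norm_real, Real.norm_of_nonneg hG0.le] at h
  have hu1 : ‖u‖ ≤ 1 / 10000 :=
    (le_mul_of_one_le_left (norm_nonneg u) hG).trans h
  have h0 : ∀ z : ℂ, ‖z - 1‖ ≤ 1 / 10000 → z ≠ 0 := by
    rintro z hz rfl
    rw [zero_sub, norm_neg, norm_one] at hz
    norm_num at hz
  have hw0 := h0 w hw
  have hw0' := h0 w' hw'
  have he : w = w' * cexp u := by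
    rw [hu, Complex.exp_sub, Complex.exp_log hw0, Complex.exp_log hw0']
    field_simp
  have h1 : w - w' = w' * ((cexp u - 1 - u) + u) := by
    nth_rw 1 [he]
    ring
  have h2 : ‖w'‖ ≤ 1 + 1 / 10000 := by
    calc ‖w'‖ = ‖(w' - 1) + 1‖ := by rw [sub_add_cancel]
      _ ≤ ‖w' - 1‖ + ‖(1 : ℂ)‖ := norm_add_le _ _
      _ ≤ _ := by rw [norm_one]; linarith
  have h3 : ‖cexp u - 1 - u‖ ≤ ‖u‖ ^ 2 := Complex.norm_exp_sub_one_sub_id_le (by linarith)
  have h4 : ‖(cexp u - 1 - u) + u‖ ≤ (1 + 1 / 10000) * ‖u‖ := by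
    refine (norm_add_le _ _).trans ?_
    have h5 : ‖u‖ ^ 2 ≤ 1 / 10000 * ‖u‖ := by
      rw [sq]
      exact mul_le_mul_of_nonneg_right hu1 (norm_nonneg u)
    linarith
  have h6 : ‖w - w'‖ ≤ (1 + 1 / 10000) * ((1 + 1 / 10000) * ‖u‖) := by
    rw [h1, norm_mul]
    exact mul_le_mul h2 h4 (norm_nonneg _) (by norm_num)
  calc G * ‖w - w'‖ ≤ G * ((1 + 1 / 10000) * ((1 + 1 / 10000) * ‖u‖)) :=
        mul_le_mul_of_nonneg_left h6 hG0.le
    _ = (1 + 1 / 10000) ^ 2 * (G * ‖u‖) := by ring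
    _ ≤ (1 + 1 / 10000) ^ 2 * (1 / 10000) := mul_le_mul_of_nonneg_left h (by positivity)
    _ ≤ 2 / 10000 := by norm_num

/-- uniqueness of the dyadic size -/
private lemma log_unique {ρ : ℝ} {m : ℤ} (hρ : 0 < ρ) (h1 : (2 : ℝ) ^ m ≤ ρ)
    (h2 : ρ < 2 * (2 : ℝ) ^ m) : (2 : ℝ) ^ m = (2 : ℝ) ^ (Int.log 2 ρ) := by
  have h3 : ((2 : ℕ) : ℝ) ^ (Int.log 2 ρ) ≤ ρ := Int.zpow_log_le_self (by norm_num) hρ
  have h4 : ρ < ((2 : ℕ) : ℝ) ^ (Int.log 2 ρ + 1) := Int.lt_zpow_succ_log_self (by norm_num) ρ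
  push_cast at h3 h4
  have h5 : (2 : ℝ) ^ m < (2 : ℝ) ^ (Int.log 2 ρ + 1) := lt_of_le_of_lt h1 h4
  have h6 : (2 : ℝ) ^ (Int.log 2 ρ) < (2 : ℝ) ^ (m + 1) := by
    rw [zpow_add_one₀ (by norm_num)]
    linarith
  have h7 := (zpow_lt_zpow_iff_right₀ (by norm_num : (1 : ℝ) < 2)).1 h5
  have h8 := (zpow_lt_zpow_iff_right₀ (by norm_num : (1 : ℝ) < 2)).1 h6
  have h9 : m = Int.log 2 ρ := by omega
  rw [h9]

/-! ### Global part -/

section

variable {K : Type} [Field K] [NumberField K]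

omit [NumberField K] in
private lemma addL {L : FI K} {a b : K} (ha : a ∈ L) (hb : b ∈ L) : a + b ∈ L :=
  (L : Submodule (𝓞 K) K).add_mem ha hb

omit [NumberField K] in
private lemma subL {L : FI K} {a b : K} (ha : a ∈ L) (hb : b ∈ L) : a - b ∈ L :=
  (L : Submodule (𝓞 K) K).sub_mem ha hb

omit [NumberField K] in
/-- sums over the lattice -/
private lemma tsL (L : FI K) (f : K → ℂ) (X : Finset K) (hX : ∀ x ∈ X, x ∈ L)
    (h0 : ∀ x ∈ L, x ∉ X → f x = 0) : ∑' x : {x : K // x ∈ L}, f x = ∑ x ∈ X, f x := by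
  have h1 : ∑' x : {x : K // x ∈ L}, f x = ∑' x : K, ({x : K | x ∈ L}).indicator f x :=
    tsum_subtype {x : K | x ∈ L} f
  rw [h1, tsum_eq_sum (s := X)]
  · refine Finset.sum_congr rfl fun x hx => ?_
    rw [Set.indicator_of_mem (show x ∈ {x : K | x ∈ L} from hX x hx)]
  · intro x hx
    by_cases hxL : x ∈ L
    · rw [Set.indicator_of_mem (show x ∈ {x : K | x ∈ L} from hxL), h0 x hxL hx]
    · rw [Set.indicator_of_notMem (show x ∉ {x : K | x ∈ L} from hxL)]

/-- the terms of the sum over the pairs -/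
private noncomputable def TT (q Ψ : Bool → ℂ → ℂ) (y : InfinitePlace K → ℝ)
    (ω : InfinitePlace K → ℂ) (r : K) (G : InfinitePlace K → ℝ) (c : InfinitePlace K → ℂ)
    (x x' : K) : ℂ :=
  ∏ v : InfinitePlace K,
    mf (q (rv v)) (Ψ (rv v)) (G v) (c v) (wv v (r + x) y ω) (wv v (r + x') y ω)

private lemma TT_G3 (q Ψ : Bool → ℂ → ℂ) (y : InfinitePlace K → ℝ)
    (ω : InfinitePlace K → ℂ) (r : K) (G : InfinitePlace K → ℝ) (c : InfinitePlace K → ℂ)
    (δ x : K) : pF (fun v => G3 (q (rv v)) (Ψ (rv v)) (G v) (c v) (wv v δ y ω)) y ω (r + δ + x) =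
      TT q Ψ y ω r G c (x + 2 * δ) x := by
  unfold pF TT
  refine Finset.prod_congr rfl fun v _ => ?_
  unfold G3 mf
  have e1 : wv v (r + (x + 2 * δ)) y ω = wv v (r + δ + x) y ω + wv v δ y ω := by
    rw [← Pool.Agent.H29.DW.wv_add]
    congr 1
    ring
  have e2 : wv v (r + x) y ω = wv v (r + δ + x) y ω - wv v δ y ω := by
    have h : wv v (r + δ + x) y ω = wv v (r + x) y ω + wv v δ y ω := by
      rw [← Pool.Agent.H29.DW.wv_add]
      congr 1
      ring
    rw [h]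
    ring
  rw [e1, e2]

private lemma TT_ne {q Ψ : Bool → ℂ → ℂ} (hq : Pf q) (hΨ : Pf Ψ) {y : InfinitePlace K → ℝ}
    {ω : InfinitePlace K → ℂ} {r : K} {G : InfinitePlace K → ℝ} {c : InfinitePlace K → ℂ}
    {x x' : K} (h : TT q Ψ y ω r G c x x' ≠ 0) (v : InfinitePlace K) :
    ‖wv v (r + x) y ω - 1‖ ≤ 1 / 10000 ∧ ‖wv v (r + x') y ω - 1‖ ≤ 1 / 10000 ∧
      ‖(G v : ℂ) * (Complex.log (wv v (r + x) y ω) - Complex.log (wv v (r + x') y ω))‖ ≤
        1 / 10000 := by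
  unfold TT at h
  exact mf_ne hq hΨ (Finset.prod_ne_zero_iff.1 h v (Finset.mem_univ v))

/-- the size of the differences -/
private lemma size {q Ψ : Bool → ℂ → ℂ} (hq : Pf q) (hΨ : Pf Ψ) {y : InfinitePlace K → ℝ}
    {ω : InfinitePlace K → ℂ} {r : K} {G : InfinitePlace K → ℝ} (hG : ∀ v, 1 ≤ G v)
    {c : InfinitePlace K → ℂ} {δ x : K} (h : TT q Ψ y ω r G c (x + 2 * δ) x ≠ 0)
    (v : InfinitePlace K) : ‖wv v δ y ω‖ ≤ 1 / 10000 ∧ G v * ‖wv v δ y ω‖ ≤ 1 / 10000 := by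
  obtain ⟨h1, h2, h3⟩ := TT_ne hq hΨ h v
  have h4 := dist_le (hG v) h1 h2 h3
  have e : wv v (r + (x + 2 * δ)) y ω - wv v (r + x) y ω = 2 * wv v δ y ω := by
    have h5 : wv v (r + (x + 2 * δ)) y ω = wv v (r + x) y ω + wv v δ y ω + wv v δ y ω := by
      rw [← Pool.Agent.H29.DW.wv_add, ← Pool.Agent.H29.DW.wv_add]
      congr 1
      ring
    rw [h5]
    ring
  rw [e, norm_mul] at h4
  have h6 : ‖(2 : ℂ)‖ = 2 := by norm_num
  rw [h6] at h4
  have h7 : G v * ‖wv v δ y ω‖ ≤ 1 / 10000 := by linarith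
  exact ⟨(le_mul_of_one_le_left (norm_nonneg _) (hG v)).trans h7, h7⟩

private lemma wv_pos {g : K} (hg : g ≠ 0) (v : InfinitePlace K) (y : InfinitePlace K → ℝ)
    {ω : InfinitePlace K → ℂ} (h : Pos ω) : 0 < ‖wv v g y ω‖ := by
  rw [Pool.Agent.H29.DW.norm_wv v g y h]
  exact mul_pos (InfinitePlace.pos_iff.2 hg) (Real.exp_pos _)

private lemma DD_pos (L : FI K) (y : InfinitePlace K → ℝ) : 0 ≤ DD L y := by
  unfold DD
  have : (0 : ℝ) ≤ (FractionalIdeal.absNorm L : ℝ) := by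
    exact_mod_cast FractionalIdeal.absNorm_nonneg L
  positivity

/-- the lower bound for the size of a difference -/
private lemma low (hNB : Pool.Agent.H31.SW.W_NB) {L : FI K} (hL : L ≠ 0)
    {y : InfinitePlace K → ℝ} {ω : InfinitePlace K → ℂ} (hω : Pos ω) {δ : K} (hδ : δ ≠ 0)
    (h2 : 2 * δ ∈ L) (hs : ∀ v, ‖wv v δ y ω‖ ≤ 1 / 10000) (v : InfinitePlace K) :
    1 ≤ 2 * (1 + DD L y) * ‖wv v δ y ω‖ := by
  classical
  have h0 : (2 : K) * δ ≠ 0 := mul_ne_zero two_ne_zero hδ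
  have h1 := hNB K L y ω (2 * δ) hL hω h2 h0
  have e : ∀ w, ‖wv w (2 * δ) y ω‖ = 2 * ‖wv w δ y ω‖ := by
    intro w
    rw [two_mul, Pool.Agent.H29.DW.wv_add, ← two_mul, norm_mul]
    norm_num
  have hle1 : ∀ w, ‖wv w (2 * δ) y ω‖ ≤ 1 := by
    intro w
    rw [e w]
    linarith [hs w]
  have h3 : ∏ w : InfinitePlace K, ‖wv w (2 * δ) y ω‖ ^ w.mult ≤ ‖wv v (2 * δ) y ω‖ := by
    rw [← Finset.mul_prod_erase _ _ (Finset.mem_univ v)]
    have h4 : ‖wv v (2 * δ) y ω‖ ^ v.mult ≤ ‖wv v (2 * δ) y ω‖ := by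
      have h5 := (Pool.Agent.H29.DW.mult_pos' v).1
      calc ‖wv v (2 * δ) y ω‖ ^ v.mult ≤ ‖wv v (2 * δ) y ω‖ ^ 1 :=
            pow_le_pow_of_le_one (norm_nonneg _) (hle1 v) h5
        _ = _ := pow_one _
    have h6 : ∏ w ∈ Finset.univ.erase v, ‖wv w (2 * δ) y ω‖ ^ w.mult ≤ 1 :=
      Finset.prod_le_one (fun w _ => pow_nonneg (norm_nonneg _) _)
        fun w _ => pow_le_one₀ (norm_nonneg _) (hle1 w)
    calc _ ≤ ‖wv v (2 * δ) y ω‖ * 1 := mul_le_mul h4 h6
          (Finset.prod_nonneg fun w _ => pow_nonneg (norm_nonneg _) _) (norm_nonneg _)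
      _ = _ := mul_one _
  have hD := DD_pos L y
  calc (1 : ℝ) ≤ DD L y * ∏ w : InfinitePlace K, ‖wv w (2 * δ) y ω‖ ^ w.mult := h1
    _ ≤ DD L y * ‖wv v (2 * δ) y ω‖ := mul_le_mul_of_nonneg_left h3 hD
    _ = 2 * DD L y * ‖wv v δ y ω‖ := by rw [e v]; ring
    _ ≤ 2 * (1 + DD L y) * ‖wv v δ y ω‖ := by
        apply mul_le_mul_of_nonneg_right _ (norm_nonneg _)
        linarith

end

/-- the numbers -/
private lemma cardM {D : ℝ} (hD : 0 ≤ D) :
    ((⌈Real.logb 2 (2 * (1 + D))⌉₊ + 1 : ℕ) : ℝ) + 1 ≤ 6 * (1 + Real.log (1 + D)) := by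
  have h1 : 0 ≤ Real.logb 2 (2 * (1 + D)) := Real.logb_nonneg (by norm_num) (by linarith)
  have h2 := (Nat.ceil_lt_add_one h1).le
  have h3 : Real.logb 2 (2 * (1 + D)) = 1 + Real.log (1 + D) / Real.log 2 := by
    rw [Real.logb_mul (by norm_num) (by linarith), Real.logb_self_eq_one (by norm_num)]
    rfl
  have h4 : 1 / 2 ≤ Real.log 2 := by
    have := Real.log_two_gt_d9
    linarith
  have h5 : 0 ≤ Real.log (1 + D) := Real.log_nonneg (by linarith)
  have h6 : Real.log (1 + D) / Real.log 2 ≤ 2 * Real.log (1 + D) := by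
    rw [div_le_iff₀ (by linarith)]
    nlinarith
  push_cast
  linarith

private lemma powM {D : ℝ} (hD : 0 ≤ D) :
    2 * (1 + D) * 2 ≤ (2 : ℝ) ^ (⌈Real.logb 2 (2 * (1 + D))⌉₊ + 1) := by
  have h1 : 0 ≤ Real.logb 2 (2 * (1 + D)) := Real.logb_nonneg (by norm_num) (by linarith)
  have h2 := Nat.le_ceil (Real.logb 2 (2 * (1 + D)))
  have h3 : 2 * (1 + D) ≤ (2 : ℝ) ^ ⌈Real.logb 2 (2 * (1 + D))⌉₊ := by
    rw [← Real.rpow_natCast]
    exact (Real.logb_le_iff_le_rpow (by norm_num) (by linarith)).1 h2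
  rw [pow_succ]
  linarith


/-! ### Lattices -/

section

variable {K : Type} [Field K] [NumberField K]

private lemma one_le_Nf {I : Ideal (𝓞 K)} (h : I ≠ ⊥) : 1 ≤ Nf K I := by
  unfold Nf
  have : Ideal.absNorm I ≠ 0 := fun h0 => h (Ideal.absNorm_eq_zero_iff.1 h0)
  exact_mod_cast Nat.one_le_iff_ne_zero.2 this

private lemma Nf_mul (I J : Ideal (𝓞 K)) : Nf K (I * J) = Nf K I * Nf K J := by
  unfold Nf
  rw [map_mul]
  push_cast
  rfl

private lemma DD_mul (I : Ideal (𝓞 K)) (M : FI K) (y : InfinitePlace K → ℝ) :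
    DD ((I : FI K) * M) y = DD M y / Nf K I := by
  unfold DD Nf
  rw [map_mul, FractionalIdeal.coeIdeal_absNorm]
  push_cast
  rw [div_div, mul_comm (Ideal.absNorm I : ℝ)]

private lemma DD_le (l I : Ideal (𝓞 K)) (M : FI K) (y : InfinitePlace K → ℝ) (hl : l ≠ ⊥)
    (hI : I ≠ ⊥) : DD (((l * I : Ideal (𝓞 K)) : FI K) * M) y ≤ DD M y / Nf K l := by
  rw [DD_mul, Nf_mul]
  have h1 := one_le_Nf hl
  have h2 := one_le_Nf hI
  exact div_le_div_of_nonneg_left (DD_pos M y) (by linarith)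
    (le_mul_of_one_le_right (by linarith) h2)

private lemma mul_ne {I : Ideal (𝓞 K)} {M : FI K} (hI : I ≠ ⊥) (hM : M ≠ 0) :
    (I : FI K) * M ≠ 0 :=
  mul_ne_zero (FractionalIdeal.coeIdeal_ne_zero.2 hI) hM

private lemma mem_mono {I J : Ideal (𝓞 K)} (h : I ≤ J) {M : FI K} {x : K}
    (hx : x ∈ (I : FI K) * M) : x ∈ (J : FI K) * M := by
  have h1 : (I : FI K) ≤ (J : FI K) := (FractionalIdeal.coeIdeal_le_coeIdeal K).2 h
  have h2 : (I : FI K) * M ≤ (J : FI K) * M := mul_le_mul_left h1 M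
  exact h2 hx

private lemma mem_of {I : Ideal (𝓞 K)} {M : FI K} {x : K} (hx : x ∈ (I : FI K) * M) :
    x ∈ M := by
  have h1 := mem_mono (J := ⊤) le_top hx
  rw [FractionalIdeal.coeIdeal_top, one_mul] at h1
  exact h1

omit [NumberField K] in
private lemma coprime {l κ : Ideal (𝓞 K)} (hlk : l ⊔ κ = ⊤) :
    ∃ a ∈ l, ∃ b ∈ κ, a + b = 1 :=
  Submodule.mem_sup.1 ((Ideal.eq_top_iff_one _).1 hlk)

/-- `L` and `κ M` meet in `(l κ) M`. -/
private lemma mem_iff {l rr κ : Ideal (𝓞 K)} (hlk : l ⊔ κ = ⊤)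
    (hκ : κ ≤ rr) {M : FI K} {z : K} :
    (z ∈ ((l * rr : Ideal (𝓞 K)) : FI K) * M ∧ z ∈ (κ : FI K) * M) ↔
      z ∈ ((l * κ : Ideal (𝓞 K)) : FI K) * M := by
  constructor
  · rintro ⟨h1, h2⟩
    obtain ⟨a, ha, b, hb, hab⟩ := coprime hlk
    have hle : l * rr ≤ l := Ideal.mul_le_left
    have h5 : z ∈ (l : FI K) * M := mem_mono hle h1
    have h6 : algebraMap (𝓞 K) K a * z ∈ (l : FI K) * ((κ : FI K) * M) :=
      FractionalIdeal.mul_mem_mul (FractionalIdeal.mem_coeIdeal_of_mem _ ha) h2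
    have h7 : algebraMap (𝓞 K) K b * z ∈ (κ : FI K) * ((l : FI K) * M) :=
      FractionalIdeal.mul_mem_mul (FractionalIdeal.mem_coeIdeal_of_mem _ hb) h5
    rw [← mul_assoc, ← FractionalIdeal.coeIdeal_mul] at h6 h7
    rw [mul_comm κ l] at h7
    have h8 := addL h6 h7
    have h4 : algebraMap (𝓞 K) K a * z + algebraMap (𝓞 K) K b * z = z := by
      rw [← add_mul, ← map_add, hab, map_one, one_mul]
    rw [h4] at h8
    exact h8
  · intro h
    have hle1 : l * κ ≤ l * rr := Ideal.mul_mono_right hκ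
    have hle2 : l * κ ≤ κ := Ideal.mul_le_right
    exact ⟨mem_mono hle1 h, mem_mono hle2 h⟩

end

theorem pf_DY (hCU : Pool.Agent.H31.SW.W_CU) (hNB : Pool.Agent.H31.SW.W_NB) : F_DY := by
  classical
  intro n q Ψ hn hq hΨ
  obtain ⟨Bq, hBq, hqB⟩ := pf_bdd hq
  obtain ⟨BΨ, hBΨ, hΨB⟩ := pf_bdd hΨ
  obtain ⟨CU, hCU1, hCU⟩ := hCU n hn
  set B : ℝ := Bq * Bq * BΨ with hB
  have hB1 : 1 ≤ B := by
    rw [hB]
    have h1 : 1 ≤ Bq * Bq := one_le_mul_of_one_le_of_one_le hBq hBq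
    exact one_le_mul_of_one_le_of_one_le h1 hBΨ
  refine ⟨6 ^ n + B ^ n * CU, by positivity, ?_⟩
  intro K _ _ hK l rr κ M y ω r G hl hκ0 hlk hM hω hκr hG hr
  have hrad : rr ≠ ⊥ := fun h => hκ0 (le_bot_iff.1 (h ▸ hκr))
  set L : FI K := ((l * rr : Ideal (𝓞 K)) : FI K) * M with hLdef
  set J : FI K := ((l * κ : Ideal (𝓞 K)) : FI K) * M with hJdef
  have hL : L ≠ 0 := mul_ne (mul_ne_zero hl hrad) hM
  have hJ : J ≠ 0 := mul_ne (mul_ne_zero hl hκ0) hM
  have hJL : ∀ z ∈ J, z ∈ L := fun z hz => ((mem_iff hlk hκr).2 hz).1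
  have hLM : ∀ z ∈ L, z ∈ M := fun z hz => mem_of hz
  have hD0 : 0 ≤ DD M y / Nf K l :=
    div_nonneg (DD_pos M y) (by have := one_le_Nf hl; linarith)
  have hDL : DD L y ≤ DD M y / Nf K l := DD_le l rr M y hl hrad
  have hDJ : DD J y ≤ DD M y / Nf K l := DD_le l κ M y hl hκ0
  set D := DD M y / Nf K l with hD
  -- the points
  obtain ⟨hfin, hcard⟩ := hCU K hK L y ω (fun v => 1 - wv v r y ω) (fun _ => 1 / 10000) hL hω
    (fun _ => by norm_num)
  set X : Finset K := hfin.toFinset with hX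
  have hXm : ∀ x, x ∈ X ↔ x ∈ L ∧ ∀ v, ‖wv v (r + x) y ω - 1‖ ≤ 1 / 10000 := by
    intro x
    rw [hX, Set.Finite.mem_toFinset]
    refine and_congr Iff.rfl (forall_congr' fun v => ?_)
    have : wv v x y ω - (1 - wv v r y ω) = wv v (r + x) y ω - 1 := by
      rw [Pool.Agent.H29.DW.wv_add]
      ring
    rw [this]
  have hXL : ∀ x ∈ X, x ∈ L := fun x hx => ((hXm x).1 hx).1
  have hXcard : (X.card : ℝ) ≤ CU * (1 + D) := by
    have h1 : ({x : K | x ∈ L ∧ ∀ v, ‖wv v x y ω - (1 - wv v r y ω)‖ ≤ 1 / 10000}.ncard : ℝ) =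
        (X.card : ℝ) := by
      rw [hX, Set.ncard_eq_toFinset_card _ hfin]
    rw [h1] at hcard
    refine hcard.trans ?_
    have h2 : PP (fun _ : InfinitePlace K => (1 / 10000 : ℝ)) ≤ 1 := by
      unfold PP
      exact Finset.prod_le_one (fun v _ => by positivity) fun v _ =>
        pow_le_one₀ (by norm_num) (by norm_num)
    have h3 : DD L y * PP (fun _ : InfinitePlace K => (1 / 10000 : ℝ)) ≤ D :=
      (mul_le_of_le_one_right (DD_pos L y) h2).trans hDL
    have h4 : 0 ≤ CU := by linarith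
    exact mul_le_mul_of_nonneg_left (by linarith) h4
  -- the differences
  set Δ : Finset K := (X ×ˢ X).image (fun p => (p.1 - p.2) / 2) with hΔ
  -- the sizes
  set N : ℕ := ⌈Real.logb 2 (2 * (1 + D))⌉₊ + 1 with hN
  set A0 : Finset (InfinitePlace K → ℤ) :=
    Fintype.piFinset (fun _ => Finset.Icc (-(N : ℤ)) 0) with hA0
  set A : Finset (InfinitePlace K → ℝ) :=
    (A0.image (fun m v => (2 : ℝ) ^ (m v))).filter
      (fun α => ∀ v, α v ≤ 1 / 10000 ∧ G v * α v ≤ 1 / 10000) with hA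
  have hApos : ∀ α ∈ A, ∀ v, 0 < α v := by
    intro α hα v
    obtain ⟨m, -, rfl⟩ := Finset.mem_image.1 (Finset.mem_filter.1 hα).1
    positivity
  refine ⟨A, ?_, ?_, ?_⟩
  · -- the number of the sizes
    have h1 : A.card ≤ (N + 1) ^ Fintype.card (InfinitePlace K) := by
      refine (Finset.card_filter_le _ _).trans (Finset.card_image_le.trans ?_)
      rw [hA0, Fintype.card_piFinset]
      rw [Finset.prod_const, Finset.card_univ]
      refine le_of_eq ?_
      congr 1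
      rw [Int.card_Icc]
      omega
    have h2 : (A.card : ℝ) ≤ ((N : ℝ) + 1) ^ Fintype.card (InfinitePlace K) := by
      exact_mod_cast h1
    have h3 : (N : ℝ) + 1 ≤ 6 * (1 + Real.log (1 + D)) := cardM hD0
    have h4 : (1 : ℝ) ≤ (N : ℝ) + 1 := by
      have : (0 : ℝ) ≤ N := Nat.cast_nonneg N
      linarith
    have h5 : 0 ≤ Real.log (1 + D) := Real.log_nonneg (by linarith)
    calc (A.card : ℝ) ≤ ((N : ℝ) + 1) ^ Fintype.card (InfinitePlace K) := h2
      _ ≤ ((N : ℝ) + 1) ^ n := pow_le_pow_right₀ h4 (Pool.Agent.H29.DW.card_places_le hK)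
      _ ≤ (6 * (1 + Real.log (1 + D))) ^ n := pow_le_pow_left₀ (by linarith) h3 n
      _ = 6 ^ n * (1 + Real.log (1 + D)) ^ n := mul_pow _ _ _
      _ ≤ (6 ^ n + B ^ n * CU) * (1 + Real.log (1 + D)) ^ n := by
          apply mul_le_mul_of_nonneg_right _ (by positivity)
          have : 0 ≤ B ^ n * CU := by positivity
          linarith
  · intro α hα v
    exact ⟨hApos α hα v, ((Finset.mem_filter.1 hα).2 v).1, ((Finset.mem_filter.1 hα).2 v).2⟩
  intro qq c hqq
  set T : K → K → ℂ := fun x x' =>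
    qq (r + x) * (starRingEnd ℂ) (qq (r + x')) * TT q Ψ y ω r G c x x' with hT
  have hTne : ∀ {x x' : K}, T x x' ≠ 0 → TT q Ψ y ω r G c x x' ≠ 0 := fun h h0 =>
    h (by rw [hT]; simp only [h0, mul_zero])
  have hTX : ∀ x ∈ L, ∀ x' ∈ L, T x x' ≠ 0 → x ∈ X ∧ x' ∈ X := by
    intro x hx x' hx' h
    exact ⟨(hXm x).2 ⟨hx, fun v => (TT_ne hq hΨ (hTne h) v).1⟩,
      (hXm x').2 ⟨hx', fun v => (TT_ne hq hΨ (hTne h) v).2.1⟩⟩
  set f : K → ℂ := fun δ => if 2 * δ ∈ (κ : FI K) * M then ∑ x ∈ X, T (x + 2 * δ) x else 0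
    with hf
  have hfx : ∀ δ, f δ ≠ 0 → 2 * δ ∈ (κ : FI K) * M ∧ ∃ x ∈ X, T (x + 2 * δ) x ≠ 0 := by
    intro δ h
    simp only [hf] at h
    split_ifs at h with h1
    · exact ⟨h1, Finset.exists_ne_zero_of_sum_ne_zero h⟩
    · exact absurd rfl h
  -- the sum over the pairs
  have hMM : MP q Ψ L ((κ : FI K) * M) y ω r qq G c = ∑ δ ∈ Δ, f δ := by
    set S : K → K → ℂ := fun x x' => if x - x' ∈ (κ : FI K) * M then T x x' else 0 with hS
    have hSX : ∀ x ∈ L, ∀ x' ∈ L, S x x' ≠ 0 → x ∈ X ∧ x' ∈ X := by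
      intro x hx x' hx' h
      refine hTX x hx x' hx' fun h0 => h ?_
      simp only [hS, h0, ite_self]
    have h1 : MP q Ψ L ((κ : FI K) * M) y ω r qq G c =
        ∑' x : {x : K // x ∈ L}, ∑' x' : {x : K // x ∈ L}, S x x' := by
      unfold MP
      refine tsum_congr fun x => tsum_congr fun x' => ?_
      simp only [hS]
      split_ifs <;> rfl
    have h2 : ∀ x ∈ L, ∑' x' : {x : K // x ∈ L}, S x x' = ∑ x' ∈ X, S x x' := by
      intro x hx
      refine tsL L (fun x' => S x x') X hXL fun x' hx' hn => ?_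
      by_contra h
      exact hn (hSX x hx x' hx' h).2
    have h3 : ∑' x : {x : K // x ∈ L}, ∑' x' : {x : K // x ∈ L}, S x x' =
        ∑ x ∈ X, ∑ x' ∈ X, S x x' := by
      rw [tsum_congr fun x : {x : K // x ∈ L} => h2 x.1 x.2]
      refine tsL L (fun x => ∑ x' ∈ X, S x x') X hXL fun x hx hn => ?_
      refine Finset.sum_eq_zero fun x' hx' => ?_
      by_contra h
      exact hn (hSX x hx x' (hXL x' hx') h).1
    have h4 : ∀ δ, f δ = ∑ x ∈ X, S (x + 2 * δ) x := by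
      intro δ
      simp only [hf, hS, add_sub_cancel_left]
      split_ifs with h
      · rfl
      · rw [Finset.sum_const_zero]
    rw [h1, h3, Finset.sum_comm, Finset.sum_congr rfl fun δ _ => h4 δ]
    rw [Finset.sum_comm (s := Δ)]
    refine Finset.sum_congr rfl fun x' hx' => ?_
    refine Finset.sum_of_injOn (fun x => (x - x') / 2) ?_ ?_ ?_ ?_
    · intro a _ b _ h
      have h' : (a - x') / 2 = (b - x') / 2 := h
      have h2' : (2 : K) ≠ 0 := two_ne_zero
      field_simp at h'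
      linear_combination h'
    · intro x hx
      exact Finset.mem_coe.2 (Finset.mem_image.2 ⟨(x, x'),
        Finset.mem_product.2 ⟨Finset.mem_coe.1 hx, hx'⟩, rfl⟩)
    · intro δ hδ hn
      by_contra h
      obtain ⟨⟨a, b⟩, hab, rfl⟩ := Finset.mem_image.1 hδ
      obtain ⟨ha, hb⟩ := Finset.mem_product.1 hab
      have h2' : (2 : K) ≠ 0 := two_ne_zero
      have hmem : x' + 2 * ((a - b) / 2) ∈ L := by
        have e : x' + 2 * ((a - b) / 2) = x' + (a - b) := by field_simp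
        rw [e]
        exact addL (hXL x' hx') (subL (hXL a ha) (hXL b hb))
      refine hn ⟨x' + 2 * ((a - b) / 2), (hSX _ hmem x' (hXL x' hx') h).1, ?_⟩
      show (x' + 2 * ((a - b) / 2) - x') / 2 = (a - b) / 2
      field_simp
      ring
    · intro x _
      show S x x' = S (x' + 2 * ((x - x') / 2)) x'
      congr 1
      have h2' : (2 : K) ≠ 0 := two_ne_zero
      field_simp
      ring
  -- the sum over the differences of a given size
  have h2δ : ∀ δ ∈ Δ, 2 * δ ∈ L := by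
    intro δ hδ
    obtain ⟨⟨a, b⟩, hab, rfl⟩ := Finset.mem_image.1 hδ
    obtain ⟨ha, hb⟩ := Finset.mem_product.1 hab
    have h2' : (2 : K) ≠ 0 := two_ne_zero
    have e : 2 * ((a - b) / 2) = a - b := by field_simp
    show 2 * ((a - b) / 2) ∈ L
    rw [e]
    exact subL (hXL a ha) (hXL b hb)
  have hOD : ∀ α, OQ q Ψ (Dl J y ω α) L y ω r qq G c =
      ∑ δ ∈ Δ, if δ ∈ Dl J y ω α then f δ else 0 := by
    intro α
    have h1 : OQ q Ψ (Dl J y ω α) L y ω r qq G c = ∑ᶠ δ ∈ Dl J y ω α, f δ := by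
      unfold OQ
      refine finsum_mem_congr rfl fun δ hδ => ?_
      have h2 : ∑' x : {x : K // x ∈ L}, qq (r + δ + x + δ) *
          (starRingEnd ℂ) (qq (r + δ + x - δ)) *
          pF (fun v => G3 (q (rv v)) (Ψ (rv v)) (G v) (c v) (wv v δ y ω)) y ω (r + δ + x) =
          ∑' x : {x : K // x ∈ L}, T (x + 2 * δ) x := by
        refine tsum_congr fun x => ?_
        simp only [hT]
        rw [TT_G3 q Ψ y ω r G c δ x]
        have e1 : r + δ + (x : K) + δ = r + (x + 2 * δ) := by ring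
        have e2 : r + δ + (x : K) - δ = r + x := by ring
        rw [e1, e2]
      have h3 : f δ = ∑ x ∈ X, T (x + 2 * δ) x := by
        simp only [hf]
        rw [if_pos ((mem_iff hlk hκr).2 hδ.1).2]
      rw [h2, h3]
      refine tsL L (fun x => T (x + 2 * δ) x) X hXL fun x hx hn => ?_
      by_contra h
      exact hn (hTX (x + 2 * δ) (addL hx (hJL _ hδ.1)) x hx h).2
    rw [h1, ← Finset.sum_filter]
    refine finsum_mem_eq_sum_of_inter_support_eq f ?_
    ext δ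
    constructor
    · rintro ⟨h2, h3⟩
      refine ⟨?_, h3⟩
      obtain ⟨-, x, hx, h4⟩ := hfx δ h3
      have h5 := (hTX (x + 2 * δ) (addL (hXL x hx) (hJL _ h2.1)) x (hXL x hx) h4).1
      refine Finset.mem_coe.2 (Finset.mem_filter.2 ⟨Finset.mem_image.2 ⟨(x + 2 * δ, x),
        Finset.mem_product.2 ⟨h5, hx⟩, ?_⟩, h2⟩)
      show (x + 2 * δ - x) / 2 = δ
      have h2' : (2 : K) ≠ 0 := two_ne_zero
      field_simp
      ring
    · rintro ⟨h2, h3⟩
      exact ⟨(Finset.mem_filter.1 (Finset.mem_coe.1 h2)).2, h3⟩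
  -- the sizes of the differences
  have hcount : ∀ δ ∈ Δ, (∑ α ∈ A, if δ ∈ Dl J y ω α then f δ else 0) =
      if δ = 0 then 0 else f δ := by
    intro δ hδ
    by_cases h0 : δ = 0
    · rw [if_pos h0]
      refine Finset.sum_eq_zero fun α hα => ?_
      rw [if_neg]
      rintro ⟨-, h1⟩
      have v : InfinitePlace K := Classical.arbitrary _
      have h2 := (h1 v).1
      rw [h0, Pool.Agent.H29.DW.wv_zero, norm_zero] at h2
      exact absurd (hApos α hα v) (not_lt.2 h2)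
    · rw [if_neg h0]
      by_cases hf0 : f δ = 0
      · rw [hf0]
        exact Finset.sum_eq_zero fun α _ => by split_ifs <;> rfl
      · obtain ⟨h2κ, x, hx, h4⟩ := hfx δ hf0
        have h2J : 2 * δ ∈ J := (mem_iff hlk hκr).1 ⟨h2δ δ hδ, h2κ⟩
        have hs := fun v => size hq hΨ hG (hTne h4) v
        have hlow : ∀ v, 1 ≤ 2 * (1 + D) * ‖wv v δ y ω‖ := fun v =>
          (low hNB hJ hω h0 h2J (fun v => (hs v).1) v).trans
            (mul_le_mul_of_nonneg_right (by linarith) (norm_nonneg _))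
        have hpos := fun v => wv_pos h0 v y hω
        set α₀ : InfinitePlace K → ℝ := fun v => (2 : ℝ) ^ (Int.log 2 ‖wv v δ y ω‖) with hα₀
        have hl1 : ∀ v, α₀ v ≤ ‖wv v δ y ω‖ := by
          intro v
          have h := Int.zpow_log_le_self (R := ℝ) (b := 2) (by norm_num) (hpos v)
          push_cast at h
          exact h
        have hl2 : ∀ v, ‖wv v δ y ω‖ < 2 * α₀ v := by
          intro v
          have h := Int.lt_zpow_succ_log_self (R := ℝ) (b := 2) (by norm_num) ‖wv v δ y ω‖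
          push_cast at h
          rw [zpow_add_one₀ (by norm_num)] at h
          rw [hα₀]
          linarith
        have hα₀A : α₀ ∈ A := by
          refine Finset.mem_filter.2 ⟨Finset.mem_image.2
            ⟨fun v => Int.log 2 ‖wv v δ y ω‖, ?_, rfl⟩, fun v => ⟨(hl1 v).trans (hs v).1, ?_⟩⟩
          · rw [hA0, Fintype.mem_piFinset]
            intro v
            rw [Finset.mem_Icc]
            constructor
            · by_contra hlt
              have h5 : Int.log 2 ‖wv v δ y ω‖ + 1 ≤ -(N : ℤ) := by omega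
              have h6 : (2 : ℝ) ^ (Int.log 2 ‖wv v δ y ω‖ + 1) ≤ (2 : ℝ) ^ (-(N : ℤ)) :=
                zpow_le_zpow_right₀ (by norm_num) h5
              have h7 : ‖wv v δ y ω‖ < (2 : ℝ) ^ (-(N : ℤ)) := by
                refine lt_of_lt_of_le ?_ h6
                rw [zpow_add_one₀ (by norm_num)]
                have := hl2 v
                rw [hα₀] at this
                linarith
              rw [zpow_neg, zpow_natCast] at h7
              have h8 := powM hD0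
              have h9 : (0 : ℝ) < (2 : ℝ) ^ N := by positivity
              have h10 : 2 * (1 + D) * ‖wv v δ y ω‖ < 1 := by
                calc 2 * (1 + D) * ‖wv v δ y ω‖ ≤ (2 : ℝ) ^ N * ‖wv v δ y ω‖ := by
                      apply mul_le_mul_of_nonneg_right _ (norm_nonneg _)
                      rw [hN]
                      nlinarith
                  _ < (2 : ℝ) ^ N * ((2 : ℝ) ^ N)⁻¹ := mul_lt_mul_of_pos_left h7 h9
                  _ = 1 := mul_inv_cancel₀ h9.ne'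
              linarith [hlow v]
            · by_contra hlt
              have h5 : 0 ≤ Int.log 2 ‖wv v δ y ω‖ := by omega
              have h6 : (1 : ℝ) ≤ α₀ v := one_le_zpow₀ (by norm_num) h5
              linarith [hl1 v, (hs v).1]
          · exact (mul_le_mul_of_nonneg_left (hl1 v) (by linarith [hG v])).trans (hs v).2
        rw [Finset.sum_eq_single α₀]
        · rw [if_pos]
          exact ⟨h2J, fun v => ⟨hl1 v, hl2 v⟩⟩
        · intro α hα hne
          rw [if_neg]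
          rintro ⟨-, h5⟩
          apply hne
          funext v
          obtain ⟨m, -, rfl⟩ := Finset.mem_image.1 (Finset.mem_filter.1 hα).1
          exact log_unique (hpos v) (h5 v).1 (h5 v).2
        · intro h
          exact absurd hα₀A h
  have hsum : ∑ δ ∈ Δ, f δ = (∑ δ ∈ Δ, if δ = 0 then f δ else 0) +
      ∑ α ∈ A, OQ q Ψ (Dl J y ω α) L y ω r qq G c := by
    have h1 : ∑ α ∈ A, OQ q Ψ (Dl J y ω α) L y ω r qq G c = ∑ δ ∈ Δ, if δ = 0 then 0 else f δ := by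
      rw [Finset.sum_congr rfl fun α _ => hOD α, Finset.sum_comm]
      exact Finset.sum_congr rfl hcount
    rw [h1, ← Finset.sum_add_distrib]
    refine Finset.sum_congr rfl fun δ _ => ?_
    split_ifs
    · rw [add_zero]
    · rw [zero_add]
  have hf0 : ‖f 0‖ ≤ B ^ n * CU * (1 + D) := by
    have h1 : ∀ x ∈ X, ‖T (x + 2 * 0) x‖ ≤ B ^ n := by
      intro x hx
      have hx2 : x + 2 * 0 ∈ L := by rw [mul_zero, add_zero]; exact hXL x hx
      have h1 : ‖qq (r + (x + 2 * 0)) * (starRingEnd ℂ) (qq (r + x))‖ ≤ 1 := by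
        rw [norm_mul, RCLike.norm_conj]
        exact mul_le_one₀ (hqq _ (addL hr (hLM _ hx2))) (norm_nonneg _)
          (hqq _ (addL hr (hLM _ (hXL x hx))))
      simp only [hT]
      rw [norm_mul]
      refine (mul_le_of_le_one_left (norm_nonneg _) h1).trans ?_
      unfold TT
      rw [norm_prod]
      calc ∏ v : InfinitePlace K, ‖mf (q (rv v)) (Ψ (rv v)) (G v) (c v)
            (wv v (r + (x + 2 * 0)) y ω) (wv v (r + x) y ω)‖ ≤ ∏ _v : InfinitePlace K, B :=
            Finset.prod_le_prod (fun v _ => norm_nonneg _) fun v _ =>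
              mf_bdd hBq hqB hΨB _ _ _ _ _
        _ = B ^ Fintype.card (InfinitePlace K) := by
            rw [Finset.prod_const, Finset.card_univ]
        _ ≤ B ^ n := pow_le_pow_right₀ hB1 (Pool.Agent.H29.DW.card_places_le hK)
    have hf00 : ‖f 0‖ ≤ ∑ x ∈ X, ‖T (x + 2 * 0) x‖ := by
      simp only [hf]
      split_ifs
      · exact norm_sum_le _ _
      · rw [norm_zero]
        exact Finset.sum_nonneg fun x _ => norm_nonneg _
    calc ‖f 0‖ ≤ ∑ x ∈ X, ‖T (x + 2 * 0) x‖ := hf00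
      _ ≤ ∑ _x ∈ X, B ^ n := Finset.sum_le_sum h1
      _ = (X.card : ℝ) * B ^ n := by rw [Finset.sum_const, nsmul_eq_mul]
      _ ≤ (CU * (1 + D)) * B ^ n := mul_le_mul_of_nonneg_right hXcard (by positivity)
      _ = _ := by ring
  have hdiag : ‖∑ δ ∈ Δ, if δ = 0 then f δ else 0‖ ≤ B ^ n * CU * (1 + D) := by
    rw [Finset.sum_ite_eq' Δ 0 f]
    split_ifs
    · exact hf0
    · rw [norm_zero]
      have : 0 ≤ CU := by linarith
      positivity
  rw [hMM, hsum]
  refine (norm_add_le _ _).trans (add_le_add (hdiag.trans ?_) (norm_sum_le _ _))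
  have h6 : (0 : ℝ) ≤ 6 ^ n := by positivity
  have h7 : 0 ≤ 1 + D := by linarith
  have h8 := mul_nonneg h6 h7
  linarith

end Pool.Agent.H27.DF.DY
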