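import Pool.Agent.H27.DM.Stmt

/-!
# Families of Hecke characters in boxes and cosets, friable conductors
-/

set_option autoImplicit false

open NumberField NumberField.InfinitePlace Complex

namespace Pool.Agent.H27.DF

open Pool.Agent.H23.LC Pool.Agent.H29.DW
open Pool.Agent.H23.LB (ph)
open Pool.Agent.H31.SX (LK)

section NF

variable {K : Type} [Field K] [NumberField K] {f : Ideal (𝓞 K)}

/-- The modulus is `f = l c`, `c = s k`: the nonzero ideals `l`, `s`, `k` are pairwise coprime, `c` is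
prime to `210`, `s` is squarefree with prime ideals of norm at most `y`, and all prime divisors of `k`
have an exponent at least `3`. -/
structure Frb (l s k c f : Ideal (𝓞 K)) (y : ℝ) : Prop where
  eqc : c = s * k
  eqf : f = l * c
  lk : LK l c
  cop : s ⊔ k = ⊤
  sqf : s.radical = s
  cub : k ≤ k.radical ^ 3
  one : 1 ≤ y
  fri : ∀ P : Ideal (𝓞 K), P.IsPrime → s ≤ P → (Ideal.absNorm P : ℝ) ≤ y

/-- `κ` divides `s k`: its part at `k` has a cube dividing `k` and a sixth power divisible by `k`, its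
part at `s` has a norm at most `N(s) ^ (1 / 3)`. -/
structure Div (s k κ : Ideal (𝓞 K)) : Prop where
  le : s * k ≤ κ
  rad : κ ≤ k.radical
  cub : k ≤ (κ ⊔ k) ^ 3
  six : (κ ⊔ k) ^ 6 ≤ k
  nrm : (Ideal.absNorm (κ ⊔ s) : ℝ) ^ 3 ≤ Ideal.absNorm s

/-- `S` is a set of pairs of a Hecke character modulo `f`, primitive at the primes of `c`, and a real
number, with local conductors at most `T v` at infinity and separated real numbers for equal
characters. -/
structure Fml (c : Ideal (𝓞 K)) (T : InfinitePlace K → ℝ) (S : Finset (HG K f × ℝ)) : Prop where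
  one : ∀ v, 1 ≤ T v
  prim : ∀ q ∈ S, PrG c q.1
  sep : ∀ q ∈ S, ∀ q' ∈ S, q.1 = q'.1 → q.2 ≠ q'.2 → 1 ≤ |q.2 - q'.2|
  size : ∀ q ∈ S, ∀ v : InfinitePlace K, 1 + |q.2 - q.1.ν v| + |(q.1.k v : ℝ)| ≤ T v

/-- The distance of the parameters of two pairs at the place `v`. -/
noncomputable def dis (q q' : HG K f × ℝ) (v : InfinitePlace K) : ℝ :=
  |(q.2 - q.1.ν v) - (q'.2 - q'.1.ν v)| + |(q.1.k v : ℝ) - q'.1.k v|

/-- The finite components of two characters agree on `1 + j`: at `a ≡ 1 mod j` their quotient has the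
value given by the parameters at infinity. -/
def Agr (j : Ideal (𝓞 K)) (χ χ' : HG K f) : Prop :=
  ∀ a : 𝓞 K, a ≠ 0 → a - 1 ∈ j →
    χ.ψ (Ideal.span {a}) * (ag χ'.k (a : K) * ph χ'.ν (a : K)) =
      χ'.ψ (Ideal.span {a}) * (ag χ.k (a : K) * ph χ.ν (a : K))

/-- `S` is divided into the `R` classes `bl = 0, ..., R - 1`: the parameters at infinity of two pairs
in the same class have the distance at most `H v`, and the finite components of the characters agree
on `1 + j`. -/
structure Box (j : Ideal (𝓞 K)) (T H : InfinitePlace K → ℝ) (R : ℕ) (S : Finset (HG K f × ℝ))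
    (bl : HG K f × ℝ → ℕ) : Prop where
  radii : ∀ v, 1 ≤ H v ∧ H v ^ 3 ≤ T v
  cls : ∀ q ∈ S, bl q < R
  near : ∀ q ∈ S, ∀ q' ∈ S, bl q = bl q' → ∀ v, dis q q' v ≤ H v
  loc : ∀ q ∈ S, ∀ q' ∈ S, bl q = bl q' → Agr j q.1 q'.1

end NF

end Pool.Agent.H27.DF
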